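import Pool.Agent.R459.Bx3
import Pool.Agent.R459.Eq13
import Pool.Agent.W263.BSD.Defs

/-! # Consecutive Frobenius angles of almost all curves `y² = x³ + a x + n` with `n` in sparse families given by digits

The coefficient `n` runs through families with as few as `N ^ c` of the integers up to `N = b ^ k`, with any `c > 0`: the
rearrangements of `k` digits, the palindromes, the integers with independent pairs of mirror digits (in particular all
integers whose `i`-th digit lies in an arbitrary set `D i` with at least two digits, for all `i`).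

For every `s ≥ 1`, every `a` and almost all `n` in such a family, the number of the `k < K` for which the angles at the `s`
consecutive primes `p_k, ..., p_(k + s - 1)` are in the box `∏ (-∞, u i)` is, for ALL boxes and ALL `K` up to a fixed power of `N`,
equal to the sum over `k < K` of the products of the exact proportions modulo these primes, up to `K ^ (1 / 2 + δ)`.

Definitions used: in `Pool.Agent.R459.Eq` (file `Pool/Agent/R459/Eq6.lean`): `Almost b k κ c η τ P`: almost all the
members `c + κ v` of the three families have the property `P`, up to a proportion of at most `τ`; in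
`Pool.Agent.W263.BSD` (file `Pool/Agent/W263/BSD/Defs.lean`): `pointCount a n p` is the number of the solutions of
`y² = x³ + a x + n` modulo `p`, `GoodPrime a n p`: `p` is a prime which does not divide `2 (4 a³ + 27 n²)`. -/

set_option autoImplicit false

namespace Pool.Agent.Results.MP_29be01_nt.DigitFamilies

open Finset Pool.Agent.R459.Eq Pool.Agent.R459.Bx
open Pool.Agent.W263.BSD (GoodPrime pointCount)

open Classical in
/-- The Frobenius angle in `[0, 1]` of `y² = x³ + a x + n` at `p`: `2 p ^ (1 / 2) cos (π θ) = p + 1 - #E(F_p)`, and `1 / 2` at the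
other primes. -/
noncomputable def angle (a n : ℤ) (p : ℕ) : ℝ :=
  if GoodPrime a n p then Real.arccos (((p : ℝ) - pointCount a n p) / (2 * √(p : ℝ))) / Real.pi else 1 / 2

open Classical in
/-- The number of the `k < K` such that the angles at the `s` consecutive primes with the numbers `k, ..., k + s - 1` (the primes
are numbered from `0`) are below `u 0, ..., u (s - 1)`. -/
noncomputable def count (s : ℕ) (a n : ℤ) (K : ℕ) (u : Fin s → ℝ) : ℕ :=
  ((range K).filter (fun k => ∀ i : Fin s, angle a n (Nat.nth Nat.Prime (k + i)) < u i)).card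

open Classical in
/-- The proportion of the residues `ν` modulo `p` such that the angle of `y² = x³ + a x + ν` at `p` is below `t`. -/
noncomputable def proportion (a : ℤ) (p : ℕ) (t : ℝ) : ℝ := (((range p).filter (fun ν : ℕ => angle a ν p < t)).card : ℝ) / p

/-- The sum over `k < K` of the products of the proportions for the `s` primes with the numbers `k, ..., k + s - 1`. -/
noncomputable def model (s : ℕ) (a : ℤ) (K : ℕ) (u : Fin s → ℝ) : ℝ :=
  ∑ k ∈ range K, ∏ i : Fin s, proportion a (Nat.nth Nat.Prime (k + i)) (u i)

lemma angle_per (p : ℕ) (a n n' : ℤ) (h' : (p : ℤ) ∣ n - n') : angle a n p = angle a n' p := by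
  have e2 : ((n : ℤ) : ZMod p) = ((n' : ℤ) : ZMod p) := by
    rw [← sub_eq_zero, ← Int.cast_sub, ZMod.intCast_zmod_eq_zero_iff_dvd]
    exact h'
  have h1 : GoodPrime a n p ↔ GoodPrime a n' p := by
    unfold GoodPrime
    rw [← ZMod.intCast_zmod_eq_zero_iff_dvd, ← ZMod.intCast_zmod_eq_zero_iff_dvd]
    push_cast
    rw [e2]
  have h2 : pointCount a n p = pointCount a n' p := by
    unfold pointCount
    rw [e2]
  unfold angle
  rw [h2]
  by_cases h : GoodPrime a n p
  · rw [if_pos h, if_pos (h1.1 h)]
  · rw [if_neg h, if_neg (fun h'' => h (h1.2 h''))]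

lemma mean_eq (s : ℕ) (a : ℤ) (k : ℕ) (u : Fin s → ℝ) :
    mean (Pool.Agent.TH869.SQ.qs s k) (fun m => ib u (fun i : Fin s => angle a m (Pool.Agent.TH869.SQ.pr (k + i)))) =
      ∏ i : Fin s, proportion a (Nat.nth Nat.Prime (k + i)) (u i) := by
  classical
  have h := Pool.Agent.TH869.SQ.mean_prod s k (fun p t => angle a (t : ℤ) p) (by
    intro p n
    apply angle_per
    push_cast
    rw [show ((n : ℤ) + p - n) = p by ring]) (fun i => Set.Iio (u i))
  have e1 : mean (Pool.Agent.TH869.SQ.qs s k) (fun m => ib u (fun i : Fin s => angle a m (Pool.Agent.TH869.SQ.pr (k + i)))) =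
      Pool.Agent.TH869.SQ.mean (Pool.Agent.TH869.SQ.qs s k) (fun t => Pool.Agent.TH869.SQ.ind (fun i => Set.Iio (u i))
        (fun i : Fin s => (fun p t => angle a (t : ℤ) p) (Pool.Agent.TH869.SQ.pr (k + i)) t)) := by
    unfold Pool.Agent.R459.Eq.mean Pool.Agent.TH869.SQ.mean ib Pool.Agent.TH869.SQ.ind
    rfl
  rw [e1, h]
  apply prod_congr rfl
  intro i _
  unfold Pool.Agent.TH869.SQ.mean Pool.Agent.TH869.SQ.ind1 proportion Pool.Agent.TH869.SQ.pr
  congr 1
  rw [card_filter]
  push_cast
  apply sum_congr rfl
  intro t _
  rfl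

/-- **Consecutive Frobenius angles for almost all curves with a coefficient in a sparse family given by digits.** Let `s ≥ 1`, `b ≥ 2`
and `η > 0`. There is `W` such that for `κ ≠ 0`, `0 < δ ≤ 1 / 2` and all sufficiently large `X` the following holds for all `k ≥ 2`,
all `c` and EVERY integer `a`. Almost all the members `n` of the families of integers `c + κ v` with `k` digits described by `Almost`
(the rearrangements `v` of `k` digits, the palindromes, the integers with independent pairs of mirror digits), up to a proportion of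
at most `X ^ (- δ)`, have for ALL `K ≥ X` with `K ^ W ≤ b ^ k` and ALL `u`: the number of the `k' < K` such that the angles
of `E : y² = x³ + a x + n` at the `s` consecutive primes `p_k', ..., p_(k' + s - 1)` are below `u 0, ..., u (s - 1)` differs from the
sum over `k' < K` of the product over `i < s` of the proportion of the residues `ν` modulo `p_(k' + i)` such that the angle of
`y² = x³ + a x + ν` at `p_(k' + i)` is below `u i` by at most `K ^ (1 / 2 + δ)`. -/
theorem result (s : ℕ) (hs : 1 ≤ s) (b : ℕ) (hb : 2 ≤ b) (η : ℝ) (hη : 0 < η) : ∃ W : ℕ, 1 ≤ W ∧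
    ∀ κ : ℤ, κ ≠ 0 → ∀ δ : ℝ, 0 < δ → δ ≤ 1 / 2 → ∃ X₀ : ℕ, ∀ X : ℕ, X₀ ≤ X → ∀ k : ℕ, 2 ≤ k → ∀ c a : ℤ,
    Almost b k κ c η ((X : ℝ) ^ (-δ)) (fun n => ∀ K : ℕ, X ≤ K → K ^ W ≤ b ^ k → ∀ u : Fin s → ℝ,
      |(count s a n K u : ℝ) - model s a K u| ≤ (K : ℝ) ^ (1 / 2 + δ)) := by
  classical
  obtain ⟨W, hW, H⟩ := boxes_almost b hb η hη s s hs
  refine ⟨W, hW, fun κ hκ δ hδ hδ1 => ?_⟩
  obtain ⟨X₀, J⟩ := H κ hκ δ hδ hδ1
  refine ⟨X₀, fun X hX k hk c a => ?_⟩
  refine Almost.mono (J X hX k hk c (fun k' n i => angle a n (Pool.Agent.TH869.SQ.pr (k' + i))) ?_) ?_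
  · intro k' m n hmn
    funext i
    apply angle_per
    refine dvd_trans ?_ hmn
    unfold Pool.Agent.TH869.SQ.qs
    exact_mod_cast Finset.dvd_prod_of_mem (fun i : Fin s => Pool.Agent.TH869.SQ.pr (k' + i)) (mem_univ i)
  · intro n hn K hK hKW u
    have h1 := hn K hK hKW u
    have e : devB s (fun k' n (i : Fin s) => angle a n (Pool.Agent.TH869.SQ.pr (k' + i))) n K u = (count s a n K u : ℝ) - model s a K u := by
      unfold devB
      rw [sum_sub_distrib]
      congr 1
      · unfold count ib
        rw [card_filter]
        push_cast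
        apply sum_congr rfl
        intro k' _
        rfl
      · unfold model
        apply sum_congr rfl
        intro k' _
        exact mean_eq s a k' u
    rw [e] at h1
    exact h1

end Pool.Agent.Results.MP_29be01_nt.DigitFamilies
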