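import Pool.Agent.Results.MP_29be01_nt.ReflectedBoxes
import Pool.Agent.R482.ST.Star

/-!
# Consecutive Frobenius angles of all quadratic twists near powers, orbits and other sequences

Let `f_n`, `n = 0, 1, 2, …`, be positive functions on `(a, ∞)`, `a ≥ 0`, such that `f_n(t) / t` is nondecreasing, and such
that the sequence `f_n(t)` has exponent of convergence at most `τ` for each `t > a`: for instance `f_n(t) = t ^ (v_n)` for
exponents `v_n ≥ 1` (`τ = 0`; all powers, the powers `t ^ (3 ^ n)` of Mills, …), the orbits `f_n(t) = g (g (⋯ g (t)))` of any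
map `g` with `g(t) > t` and `g(t) / t` nondecreasing (`τ = 0`; for instance of `t² + c`), and `f_n(t) = v_n t`.
Let `ε > 0` and `s ≥ 0`. There are `C, c > 0` such that for all `A`, `B` and all `α > a` outside a set of Hausdorff dimension at
most `(1 - c + τ) / (1 - θ)`, each `κ` and all but finitely many `n`, for ALL twists `y² = x³ + A D² x + B D³` of
`y² = x³ + A x + B` with `||D| - f_n(α)| ≤ κ f_n(α) ^ θ`, all `K` with `(2 + log |D|) ^ C ≤ K ≤ |D| ^ c` and all boxes of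
dimension `s` the number of the `k < K` with `(x_k, …, x_{k+s-1})` in the box, for the twist, is the mean of the numbers for
the curve itself over the `2 ^ s` reflections of the box, with an error at most `K ^ (1/2 + ε)`.
-/

set_option autoImplicit false

namespace Pool.Agent.Results.MP_29be01_nt.StarshapedAngles

open Pool.Agent.W406.TW

/-- the functions `f n` are positive on `(a, ∞)`, `a ≥ 0`, and `f n x / x` is nondecreasing there -/
def Starshaped (a : ℝ) (f : ℕ → ℝ → ℝ) : Prop :=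
  0 ≤ a ∧ ∀ n : ℕ, ∀ x y : ℝ, a < x → x ≤ y → 0 < f n x ∧ f n x / x ≤ f n y / y

/-- for each `x > a` the exponent of convergence of the sequence `f n x` is at most `τ` -/
def ExpLe (a : ℝ) (f : ℕ → ℝ → ℝ) (τ : ℝ) : Prop :=
  ∀ x : ℝ, a < x → ∀ t : ℝ, τ < t → Summable (fun n : ℕ => (f n x) ^ (-t))

/-- for the twist by `D` the numbers of the vectors of `s` consecutive angles in all boxes are the means over the
reflections for the curve itself, for all `(2 + log |D|) ^ C ≤ K ≤ |D| ^ c` -/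
def Expected (s : ℕ) (ε C c : ℝ) (A B D : ℤ) : Prop :=
  ∀ K : ℕ, (2 + Real.log |(D : ℝ)|) ^ C ≤ K → (K : ℝ) ≤ |(D : ℝ)| ^ c →
    ∀ R : Fin s → Set ℝ, (∀ i, (R i).OrdConnected) →
      |(cons (A * D ^ 2) (B * D ^ 3) R K : ℝ) -
        (1 / 2 ^ s) * ∑ J : Finset (Fin s), (cons A B (refl J R) K : ℝ)| ≤ (K : ℝ) ^ (1 / 2 + ε)

lemma count (s : ℕ) (ε : ℝ) (hε : 0 < ε) : ∃ C c : ℝ, 0 < C ∧ 0 < c ∧ c < 1 ∧ ∀ A B : ℤ, ∀ ε' : ℝ, 0 < ε' → ∃ M : ℝ,
    ∀ X : ℝ, 1 ≤ X → {D | D ∈ {D : ℤ | D ≠ 0 ∧ ¬ Expected s ε C c A B D} ∧ |(D : ℝ)| ≤ X}.Finite ∧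
      ({D | D ∈ {D : ℤ | D ≠ 0 ∧ ¬ Expected s ε C c A B D} ∧ |(D : ℝ)| ≤ X}.ncard : ℝ) ≤ M * X ^ (1 - c + ε') := by
  obtain ⟨C, c0, hC, hc0, N₀, hN⟩ := ReflectedBoxes.result s ε hε
  set c : ℝ := min c0 (1 / 2) with hc
  have hcpos : 0 < c := lt_min hc0 (by norm_num)
  have hcle : c ≤ c0 := min_le_left _ _
  have hc1 : c ≤ 1 / 2 := min_le_right _ _
  refine ⟨C, c, hC, hcpos, by linarith, fun A B ε' hε' => ?_⟩
  have hb : ∀ (P : ℤ → Prop) (X : ℝ), {k : ℤ | P k ∧ |(k : ℝ)| ≤ X}.Finite := by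
    intro P X
    refine (Set.finite_Icc (-⌊X⌋) ⌊X⌋).subset ?_
    rintro k ⟨-, h1⟩
    rw [abs_le] at h1
    rw [Set.mem_Icc]
    constructor
    · rw [neg_le]
      apply Int.le_floor.2
      push_cast
      linarith [h1.1]
    · exact Int.le_floor.2 h1.2
  set S : Set ℤ := {D : ℤ | D ≠ 0 ∧ ¬ Expected s ε C c A B D} with hS
  set g : ℕ → ℝ := fun n => ({D : ℤ | D ∈ S ∧ |(D : ℝ)| ≤ (n : ℝ)}.ncard : ℝ) with hg
  -- dyadic step
  have hstep : ∀ n : ℕ, N₀ ≤ n → 1 ≤ n → ∀ m : ℕ, n ≤ 2 * m →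
      g n ≤ g m + (n : ℝ) ^ (1 - c) := by
    intro n hn hn1 m hm
    have hn1' : (1 : ℝ) ≤ n := by exact_mod_cast hn1
    have hsub : {D : ℤ | D ∈ S ∧ |(D : ℝ)| ≤ (n : ℝ)} ⊆ {D : ℤ | D ∈ S ∧ |(D : ℝ)| ≤ (m : ℝ)} ∪
        {D : ℤ | D ≠ 0 ∧ |D| ≤ n ∧ ∃ K : ℕ, (Real.log n) ^ C ≤ K ∧ (K : ℝ) ≤ (n : ℝ) ^ c0 ∧
          ∃ R : Fin s → Set ℝ, (∀ i, (R i).OrdConnected) ∧
          (K : ℝ) ^ (1 / 2 + ε) < |(cons (A * D ^ 2) (B * D ^ 3) R K : ℝ) -
            (1 / 2 ^ s) * ∑ J : Finset (Fin s), (cons A B (refl J R) K : ℝ)|} := by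
      rintro D ⟨⟨hD0, hD⟩, hDn⟩
      rcases le_or_gt |(D : ℝ)| (m : ℝ) with h | h
      · exact Or.inl ⟨⟨hD0, hD⟩, h⟩
      · right
        unfold Expected at hD
        push Not at hD
        obtain ⟨x, hx1, hx2, t, ht, hlt⟩ := hD
        have hDpos : 0 < |(D : ℝ)| := lt_of_le_of_lt (Nat.cast_nonneg m) h
        have hn2 : (n : ℝ) ≤ 2 * |(D : ℝ)| := by
          have : (n : ℝ) ≤ 2 * m := by exact_mod_cast hm
          linarith
        refine ⟨hD0, by exact_mod_cast hDn, x, ?_, ?_, t, ht, hlt⟩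
        · refine le_trans (Real.rpow_le_rpow (Real.log_nonneg hn1') ?_ hC.le) hx1
          calc Real.log n ≤ Real.log (2 * |(D : ℝ)|) := Real.log_le_log (by linarith) hn2
            _ = Real.log 2 + Real.log |(D : ℝ)| := Real.log_mul (by norm_num) hDpos.ne'
            _ ≤ 2 + Real.log |(D : ℝ)| := by
                have := Real.log_two_lt_d9
                linarith
        · refine hx2.trans ((Real.rpow_le_rpow hDpos.le hDn hcpos.le).trans ?_)
          exact Real.rpow_le_rpow_of_exponent_le hn1' hcle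
    have hfin2 : {D : ℤ | D ≠ 0 ∧ |D| ≤ n ∧ ∃ K : ℕ, (Real.log n) ^ C ≤ K ∧ (K : ℝ) ≤ (n : ℝ) ^ c0 ∧
          ∃ R : Fin s → Set ℝ, (∀ i, (R i).OrdConnected) ∧
          (K : ℝ) ^ (1 / 2 + ε) < |(cons (A * D ^ 2) (B * D ^ 3) R K : ℝ) -
            (1 / 2 ^ s) * ∑ J : Finset (Fin s), (cons A B (refl J R) K : ℝ)|}.Finite := by
      refine (hb (fun _ => True) n).subset fun D hD => ⟨trivial, ?_⟩
      exact_mod_cast hD.2.1
    have h1 := (Set.ncard_le_ncard hsub ((hb _ _).union hfin2)).trans (Set.ncard_union_le _ _)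
    have h2 := hN n hn A B
    have h3 : (n : ℝ) ^ (1 - c0) ≤ (n : ℝ) ^ (1 - c) := Real.rpow_le_rpow_of_exponent_le hn1' (by linarith)
    have h4 : g n ≤ g m + (({D : ℤ | D ≠ 0 ∧ |D| ≤ n ∧ ∃ K : ℕ, (Real.log n) ^ C ≤ K ∧ (K : ℝ) ≤ (n : ℝ) ^ c0 ∧
          ∃ R : Fin s → Set ℝ, (∀ i, (R i).OrdConnected) ∧
          (K : ℝ) ^ (1 / 2 + ε) < |(cons (A * D ^ 2) (B * D ^ 3) R K : ℝ) -
            (1 / 2 ^ s) * ∑ J : Finset (Fin s), (cons A B (refl J R) K : ℝ)|}.ncard : ℕ) : ℝ) := by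
      simp only [hg]
      exact_mod_cast h1
    linarith
  -- induction
  set q : ℝ := 2 ^ (1 - c) with hq
  have hq1 : Real.sqrt 2 ≤ q := by
    rw [Real.sqrt_eq_rpow, hq]
    exact Real.rpow_le_rpow_of_exponent_le (by norm_num) (by linarith)
  have hs2 : (1.4 : ℝ) ≤ Real.sqrt 2 := Real.le_sqrt_of_sq_le (by norm_num)
  set M : ℝ := 2 * ((N₀ : ℝ) + 2) + 1 + 20 with hM
  have hN00 : (0 : ℝ) ≤ N₀ := Nat.cast_nonneg _
  have hsmall : ∀ n : ℕ, g n ≤ 2 * (n : ℝ) + 1 := by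
    intro n
    have hsub : {D : ℤ | D ∈ S ∧ |(D : ℝ)| ≤ (n : ℝ)} ⊆ ((Finset.Icc (-(n : ℤ)) n : Finset ℤ) : Set ℤ) := by
      rintro D ⟨-, h⟩
      rw [Finset.mem_coe, Finset.mem_Icc]
      have h' : |D| ≤ (n : ℤ) := by exact_mod_cast h
      exact abs_le.1 h'
    have h1 := Set.ncard_le_ncard hsub (Finset.finite_toSet _)
    rw [Set.ncard_coe_finset, Int.card_Icc] at h1
    have h2 : {D : ℤ | D ∈ S ∧ |(D : ℝ)| ≤ (n : ℝ)}.ncard ≤ 2 * n + 1 := by
      refine h1.trans (le_of_eq ?_)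
      omega
    simp only [hg]
    exact_mod_cast h2
  have hind : ∀ n : ℕ, 1 ≤ n → g n ≤ M * (n : ℝ) ^ (1 - c) := by
    intro n
    induction n using Nat.strong_induction_on with
    | _ n ih =>
      intro hn1
      have hn1' : (1 : ℝ) ≤ n := by exact_mod_cast hn1
      have hp : 1 ≤ (n : ℝ) ^ (1 - c) := Real.one_le_rpow hn1' (by linarith)
      rcases Nat.lt_or_ge n (N₀ + 2) with h | h
      · have h1 := hsmall n
        have h2 : (n : ℝ) ≤ N₀ + 2 := by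
          have : (n : ℝ) < ((N₀ + 2 : ℕ) : ℝ) := by exact_mod_cast h
          push_cast at this
          linarith
        have h3 : M ≤ M * (n : ℝ) ^ (1 - c) := le_mul_of_one_le_right (by positivity) hp
        linarith
      · -- n ≥ 2
        have hm1 : 1 ≤ (n + 1) / 2 := by omega
        have hm2 : (n + 1) / 2 < n := by omega
        have h1 := ih ((n + 1) / 2) hm2 hm1
        have h2 := hstep n (by omega) hn1 ((n + 1) / 2) (by omega)
        rcases Nat.lt_or_ge n 10 with h10 | h10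
        · have h3 := hsmall n
          have h4 : (n : ℝ) < 10 := by exact_mod_cast h10
          have h5 : M ≤ M * (n : ℝ) ^ (1 - c) := le_mul_of_one_le_right (by positivity) hp
          have : (21 : ℝ) ≤ M := by rw [hM]; linarith
          linarith
        · have h4 : (((n + 1) / 2 : ℕ) : ℝ) ≤ 11 / 20 * n := by
            have e1 : 2 * ((n + 1) / 2) ≤ n + 1 := Nat.mul_div_le _ _
            have e2 : 2 * (((n + 1) / 2 : ℕ) : ℝ) ≤ n + 1 := by exact_mod_cast e1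
            have e3 : (10 : ℝ) ≤ n := by exact_mod_cast h10
            linarith
          have h5 : (((n + 1) / 2 : ℕ) : ℝ) ^ (1 - c) ≤ (11 / 20 * (n : ℝ)) ^ (1 - c) :=
            Real.rpow_le_rpow (Nat.cast_nonneg _) h4 (by linarith)
          have h6 : (11 / 20 * (n : ℝ)) ^ (1 - c) = (11 / 20 : ℝ) ^ (1 - c) * (n : ℝ) ^ (1 - c) :=
            Real.mul_rpow (by norm_num) (by linarith)
          have h7 : (11 / 20 : ℝ) ^ (1 - c) ≤ (11 / 20 : ℝ) ^ (1 / 2 : ℝ) :=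
            Real.rpow_le_rpow_of_exponent_ge (by norm_num) (by norm_num) (by linarith)
          have h8 : (11 / 20 : ℝ) ^ (1 / 2 : ℝ) ≤ 3 / 4 := by
            rw [← Real.sqrt_eq_rpow]
            rw [Real.sqrt_le_left (by norm_num)]
            norm_num
          have hM0 : 0 < M := by positivity
          have hM21 : (21 : ℝ) ≤ M := by rw [hM]; linarith
          have h9 : M * (((n + 1) / 2 : ℕ) : ℝ) ^ (1 - c) ≤ M * (3 / 4 * (n : ℝ) ^ (1 - c)) := by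
            apply mul_le_mul_of_nonneg_left _ hM0.le
            rw [h6] at h5
            refine h5.trans (mul_le_mul_of_nonneg_right (h7.trans h8) (by positivity))
          nlinarith
  refine ⟨M, fun X hX => ⟨hb _ _, ?_⟩⟩
  have hX0 : 0 < X := by linarith
  have hX1 : 1 ≤ ⌊X⌋₊ := Nat.le_floor (by exact_mod_cast hX)
  have hset : {D : ℤ | D ∈ S ∧ |(D : ℝ)| ≤ X} ⊆ {D : ℤ | D ∈ S ∧ |(D : ℝ)| ≤ ((⌊X⌋₊ : ℕ) : ℝ)} := by
    rintro D ⟨h1, h2⟩
    refine ⟨h1, ?_⟩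
    have h3 : ((D.natAbs : ℕ) : ℝ) ≤ X := by
      rw [Nat.cast_natAbs]
      push_cast
      exact h2
    have h4 := Nat.le_floor h3
    have h5 : ((D.natAbs : ℕ) : ℝ) ≤ ((⌊X⌋₊ : ℕ) : ℝ) := by exact_mod_cast h4
    rw [Nat.cast_natAbs] at h5
    push_cast at h5
    exact h5
  have hle : ({D : ℤ | D ∈ S ∧ |(D : ℝ)| ≤ X}.ncard : ℝ) ≤ g ⌊X⌋₊ := by
    simp only [hg]
    exact Nat.cast_le.2 (Set.ncard_le_ncard hset (hb _ _))
  calc ({D : ℤ | D ∈ S ∧ |(D : ℝ)| ≤ X}.ncard : ℝ) ≤ g ⌊X⌋₊ := hle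
    _ ≤ M * ((⌊X⌋₊ : ℕ) : ℝ) ^ (1 - c) := hind _ hX1
    _ ≤ M * X ^ (1 - c) := by
        apply mul_le_mul_of_nonneg_left _ (by positivity)
        exact Real.rpow_le_rpow (Nat.cast_nonneg _) (Nat.floor_le hX0.le) (by linarith)
    _ ≤ M * X ^ (1 - c + ε') := by
        apply mul_le_mul_of_nonneg_left _ (by positivity)
        exact Real.rpow_le_rpow_of_exponent_le hX (by linarith)

/-- **Theorem.** `cons A B R K` is the number of `k < K` for which the angles of the curve `y² = x³ + A x + B` at the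
consecutive primes `p_k, …, p_{k+s-1}` (`p_0 = 2`) lie in `R 0, …, R (s - 1)`; `refl J R` is the box `R` with the
coordinates in `J` reflected at `1/2`. For every `s` and `ε > 0` there are `C > 0` and `0 < c < 1` such that for all starshaped
functions `f` on `(a, ∞)` of exponent of convergence at most `τ ≥ 0`, `θ < 1` and all integers `A`, `B` there is a set `E` of
Hausdorff dimension at most `(1 - c + τ) / (1 - θ)` such that for each `α > a` outside `E`, each `κ` and all but finitely many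
`n`, for ALL `D ≠ 0` with `||D| - f_n(α)| ≤ κ f_n(α) ^ θ`, all `K` with `(2 + log |D|) ^ C ≤ K ≤ |D| ^ c` and all boxes `R` the
count for the twist `y² = x³ + A D² x + B D³` differs from the mean over the `2 ^ s` reflections of the counts for the curve
itself by at most `K ^ (1/2 + ε)`. The functions `v_n x`, `v_n > 0`, are starshaped on `(0, ∞)`, of exponent `τ` if `v` has exponent of convergence at most
`τ`; the functions `x ^ (v_n)`, `v_n ≥ 1`, are starshaped on `(1, ∞)`, of exponent `0` if the sums of `exp (-t v_n)` converge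
for `t > 0`; and the iterates of a map `g` with `g(x) > x` for `x > a` and `g(x) / x` nondecreasing are starshaped on
`(a, ∞)`, of exponent `0`. -/
theorem result :
    (∀ (s : ℕ) (ε : ℝ), 0 < ε → ∃ C c : ℝ, 0 < C ∧ 0 < c ∧ c < 1 ∧
      ∀ (a : ℝ) (f : ℕ → ℝ → ℝ) (τ θ : ℝ), Starshaped a f → 0 ≤ τ → ExpLe a f τ → θ < 1 → ∀ A B : ℤ,
      ∃ E : Set ℝ, dimH E ≤ ENNReal.ofReal ((1 - c + τ) / (1 - θ)) ∧
        ∀ α : ℝ, a < α → α ∉ E → ∀ κ : ℝ, ∃ n₀ : ℕ, ∀ n : ℕ, n₀ ≤ n → ∀ D : ℤ, D ≠ 0 →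
          |(|D| : ℝ) - f n α| ≤ κ * (f n α) ^ θ → Expected s ε C c A B D) ∧
    (∀ (v : ℕ → ℝ) (τ : ℝ), (∀ n, 0 < v n) → (∀ t : ℝ, τ < t → Summable (fun n : ℕ => (v n) ^ (-t))) →
      Starshaped 0 (fun n x => v n * x) ∧ ExpLe 0 (fun n x => v n * x) τ) ∧
    (∀ v : ℕ → ℝ, (∀ n, 1 ≤ v n) → (∀ t : ℝ, 0 < t → Summable fun n : ℕ => Real.exp (-(t * v n))) →
      Starshaped 1 (fun n x => x ^ (v n)) ∧ ExpLe 1 (fun n x => x ^ (v n)) 0) ∧
    (∀ (a : ℝ) (g : ℝ → ℝ), 0 ≤ a → (∀ x y : ℝ, a < x → x ≤ y → g x / x ≤ g y / y) → (∀ x : ℝ, a < x → x < g x) →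
      Starshaped a (fun n x => g^[n] x) ∧ ExpLe a (fun n x => g^[n] x) 0) := by
  refine ⟨fun s ε hε => ?_, Pool.Agent.R482.ST.ex_mul, Pool.Agent.R482.ST.ex_pow,
    Pool.Agent.R482.ST.ex_orbit⟩
  obtain ⟨C, c, hC, hc, hc1, hcount⟩ := count s ε hε
  refine ⟨C, c, hC, hc, hc1, fun a f τ θ hf hτ hE hθ1 A B => ?_⟩
  obtain ⟨E, h2, h3⟩ := Pool.Agent.R482.ST.windows {D : ℤ | D ≠ 0 ∧ ¬ Expected s ε C c A B D} (fun D : ℤ => |(D : ℝ)|)
    hf hτ hE (s := 1 - c) (by linarith) hθ1 (hcount A B)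
  refine ⟨E, h2, fun α hα hαE κ => ?_⟩
  obtain ⟨n₀, hn⟩ := h3 α hα hαE κ
  refine ⟨n₀, fun n hn1 D hD hw => ?_⟩
  by_contra hcon
  exact absurd (hn n hn1 D ⟨hD, hcon⟩) (not_lt.2 hw)

end Pool.Agent.Results.MP_29be01_nt.StarshapedAngles
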