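import Pool.Agent.R385.TL.Seq
import Pool.Agent.W263.BSD.Defs

/-!
# Consecutive Frobenius angles of an elliptic curve and the frequency of large values

`E : y² = x³ + a x + n`, `x_p` is its Frobenius angle at `p`, and `R = ∏ [l_i, u_i)` is a box.  For the
primes `p_k` with `(x_{p_k}, …, x_{p_{k+s-1}}) ∈ R` let `U_R(t) = ∑ cos(t log p_k) / p_k`.  Definitions
used: `pointCount a n p`, the number of the solutions of `y² = x³ + a x + n` modulo `p`, and
`GoodPrime a n p`: `p` is a prime which does not divide `2 (4 a³ + 27 n²)`.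
-/

set_option autoImplicit false

namespace Pool.Agent.Results.MP_29be01_nt.TailExponents

open MeasureTheory Filter Topology
open Pool.Agent.R385.TL Pool.Agent.R385.TL.Sets Pool.Agent.R385.TL.Seq
open Pool.Agent.W263.BSD (GoodPrime pointCount)

open Classical in
/-- The Frobenius angle in `[0, 1]` of `y² = x³ + a x + n` at `p`:
`2 p ^ (1 / 2) cos (π θ) = p + 1 - #E(F_p)`, and `1 / 2` at the other primes. -/
noncomputable def angle (a n : ℤ) (p : ℕ) : ℝ :=
  if GoodPrime a n p then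
    Real.arccos (((p : ℝ) - pointCount a n p) / (2 * √(p : ℝ))) / Real.pi else 1 / 2

/-- `(x_{p_k}, …, x_{p_{k+s-1}})` is in the box `∏ [l_i, u_i)`; the primes are numbered from `0`. -/
def InBox (a n : ℤ) {s : ℕ} (l u : Fin s → ℝ) (k : ℕ) : Prop :=
  ∀ i : Fin s, l i ≤ angle a n (Nat.nth Nat.Prime (k + i)) ∧
    angle a n (Nat.nth Nat.Prime (k + i)) < u i

/-- A box in `[0, 1]^s` of positive volume. -/
def IsBox {s : ℕ} (l u : Fin s → ℝ) : Prop := ∀ i, 0 ≤ l i ∧ l i < u i ∧ u i ≤ 1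

/-- The Sato–Tate measure `μ_ST^{[s]}` of the box. -/
noncomputable def mass {s : ℕ} (l u : Fin s → ℝ) : ℝ :=
  ∏ i, ∫ v in (l i)..(u i), 2 * Real.sin (Real.pi * v) ^ 2

/-- The tuples of consecutive angles are equidistributed for `μ_ST^{[s]}`. -/
def Equidistributed (a n : ℤ) (s : ℕ) : Prop :=
  ∀ l u : Fin s → ℝ, IsBox l u →
    Tendsto (fun K : ℕ => (hits (InBox a n l u) K : ℝ) / K) atTop (𝓝 (mass l u))

/-- The discrepancy `D_K` is `O(K^{-η})`. -/
def PowerSaving (a n : ℤ) (s : ℕ) (η : ℝ) : Prop :=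
  ∃ C : ℝ, ∀ K : ℕ, 1 ≤ K → ∀ l u : Fin s → ℝ, IsBox l u →
    |(hits (InBox a n l u) K : ℝ) / K - mass l u| ≤ C * (K : ℝ) ^ (-η)

lemma mass_pos {s : ℕ} {l u : Fin s → ℝ} (h : IsBox l u) : 0 < mass l u := by
  refine Finset.prod_pos fun i _ => ?_
  obtain ⟨h0, h1, h2⟩ := h i
  refine intervalIntegral.intervalIntegral_pos_of_pos_on ?_ ?_ h1
  · exact (by fun_prop : Continuous fun v : ℝ => 2 * Real.sin (Real.pi * v) ^ 2).intervalIntegrable
      _ _
  · intro v hv
    have h3 : 0 < Real.sin (Real.pi * v) := by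
      refine Real.sin_pos_of_pos_of_lt_pi ?_ ?_
      · exact mul_pos Real.pi_pos (lt_of_le_of_lt h0 hv.1)
      · have h4 : v < 1 := lt_of_lt_of_le hv.2 h2
        nlinarith [Real.pi_pos]
    positivity

/-- **Consecutive Frobenius angles and the frequency of large values.**  For every box the set of the
primes `p_k` with `(x_{p_k}, …, x_{p_{k+s-1}})` in the box has the properties `Laws`.  The tuples are
equidistributed for `μ_ST^{[s]}` if and only if for all boxes the limits of the proportions exist and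
`U_R` has the tail exponent `μ_ST^{[s]}(R)`.  A bound `D_K = O(K^{-η})` for one `η > 0` implies that for
all boxes `R` the large values of `U_R` have the exact frequency `RareF`, `FreqF` for
`κ = μ_ST^{[s]}(R)`. -/
theorem result (a n : ℤ) (s : ℕ) :
    (∀ l u : Fin s → ℝ, Laws (primesOf (InBox a n l u))) ∧
    (Equidistributed a n s ↔
      (∀ l u : Fin s → ℝ, IsBox l u → ∃ ρ : ℝ,
        Tendsto (fun K : ℕ => (hits (InBox a n l u) K : ℝ) / K) atTop (𝓝 ρ)) ∧
      ∀ l u : Fin s → ℝ, IsBox l u →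
        TailExponent (mass l u) (U (primesOf (InBox a n l u)))) ∧
    ∀ η : ℝ, 0 < η → PowerSaving a n s η → ∀ l u : Fin s → ℝ, IsBox l u →
      RareF (mass l u) (U (primesOf (InBox a n l u))) ∧
      FreqF (mass l u) (U (primesOf (InBox a n l u))) := by
  have hL : ∀ l u : Fin s → ℝ, Laws (primesOf (InBox a n l u)) := fun l u =>
    laws fun p hp => hp.1
  refine ⟨hL, ⟨fun h => ⟨fun l u hb => ⟨_, h l u hb⟩, fun l u hb => ?_⟩, fun h l u hb => ?_⟩, ?_⟩
  · have h1 := (tendsto_iff (InBox a n l u) _).2 (h l u hb)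
    exact (((hL l u).2.2.2 _ (mass_pos hb).le).1 h1).2
  · obtain ⟨ρ, hρ⟩ := h.1 l u hb
    exact (tendsto_iff (InBox a n l u) _).1 (((hL l u).2.2.2 _ (mass_pos hb).le).2
      ⟨⟨ρ, (tendsto_iff (InBox a n l u) ρ).2 hρ⟩, h.2 l u hb⟩)
  · rintro η hη ⟨C, hC⟩ l u hb
    exact sharp (mass_pos hb) hη ⟨C, fun K hK => hC K hK l u hb⟩

end Pool.Agent.Results.MP_29be01_nt.TailExponents
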