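import Mathlib
import Pool.Agent.R429.TL.Cons
import Pool.Agent.R429.TL.Abs

/-!
# The rate of the discrepancy of consecutive Frobenius angles in families of quadratic twists: a tiny proportion of the twists
decides

Definitions used in the statement: the trace of Frobenius `ap`, the angle `ang`, the number `cons A B R K` of the `k < K` for which
the angles of `y² = x³ + A x + B` at the `s` consecutive primes `p_k, …, p_{k+s-1}` are in the box `R`, and the box `refl J R`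
reflected at `1/2` in the coordinates `i ∈ J` (all from the starting module `Pool.Agent.W406.TW`).
-/

set_option autoImplicit false

namespace Pool.Agent.Results.MP_29be01_nt.TwistDichotomy

open Finset Filter Pool.Agent.W406.TW

noncomputable section

/-- The Sato-Tate measure of a subset of the line. -/
def st (S : Set ℝ) : ℝ := ∫ u in S ∩ Set.Icc 0 1, 2 * Real.sin (Real.pi * u) ^ 2

/-- The discrepancy of the first `K` vectors of `s` consecutive angles of `y² = x³ + A x + B` is at most `V / K`. -/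
def DiscLe (A B : ℤ) (s K : ℕ) (V : ℝ) : Prop :=
  ∀ R : Fin s → Set ℝ, (∀ i, (R i).OrdConnected) → |(cons A B R K : ℝ) - K * ∏ i, st (R i)| ≤ V

/-- The same for the symmetrised counts: the means over the `2 ^ s` reflections of the box. -/
def SymDiscLe (A B : ℤ) (s K : ℕ) (V : ℝ) : Prop :=
  ∀ R : Fin s → Set ℝ, (∀ i, (R i).OrdConnected) →
    |(1 / 2 ^ s) * (∑ J : Finset (Fin s), (cons A B (refl J R) K : ℝ)) - K * ∏ i, st (R i)| ≤ V

lemma two_pow (θ η : ℝ) (hη : 0 < η) (hθ : 1 / 2 ≤ θ) : ∀ᶠ K : ℕ in atTop,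
    (K : ℝ) ^ (θ + η / 2) + (K : ℝ) ^ (1 / 2 + η / 2) ≤ (K : ℝ) ^ (θ + η) := by
  have h2 : ∀ᶠ K : ℕ in atTop, (2 : ℝ) ≤ (K : ℝ) ^ (η / 2) :=
    ((tendsto_rpow_atTop (by positivity : 0 < η / 2)).comp tendsto_natCast_atTop_atTop).eventually_ge_atTop _
  filter_upwards [h2, eventually_ge_atTop 1] with K hK hK1
  have hK0 : (1 : ℝ) ≤ K := by exact_mod_cast hK1
  have h3 : (K : ℝ) ^ (1 / 2 + η / 2) ≤ (K : ℝ) ^ (θ + η / 2) := Real.rpow_le_rpow_of_exponent_le hK0 (by linarith)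
  have h4 : (K : ℝ) ^ (θ + η) = (K : ℝ) ^ (θ + η / 2) * (K : ℝ) ^ (η / 2) := by
    rw [← Real.rpow_add (by linarith)]; congr 1; ring
  rw [h4]
  have h5 : 0 < (K : ℝ) ^ (θ + η / 2) := by positivity
  nlinarith

lemma mono (K : ℕ) (hK : 1 ≤ K) (θ η : ℝ) (hη : 0 < η) : (K : ℝ) ^ (θ + η / 2) ≤ (K : ℝ) ^ (θ + η) :=
  Real.rpow_le_rpow_of_exponent_le (by exact_mod_cast hK) (by linarith)

/-- Let `E : y² = x³ + A x + B` be any elliptic curve, `E_D : y² = x³ + A D² x + B D³` its quadratic twist, `s ≥ 0` and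
`θ ≥ 1/2` (`θ = 1/2` is the exponent of the question). The following are equivalent:

(1) for every `η > 0` the symmetrised discrepancy of the vectors of `s` consecutive angles of `E` is at most `K ^ (θ - 1 + η)` for all
large `K`;

(2) for every `η > 0`, with some `C` and `c > 0`, for all but `N ^ (1 - c)` of the `D` with `0 < |D| ≤ N` the discrepancy for `E_D`
is at most `K ^ (θ - 1 + η)` for all `K` between `(log N) ^ C` and `N ^ c`;

(3) for every `η > 0` and `a`, for `K` large and `N ≥ N(K)`, the discrepancy for `E_D` is at most `K ^ (θ - 1 + η)` at `K` for all but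
`K ^ (-a) N` of the `D`;

(4) for every `η > 0` and some `a`, for `K` large and infinitely many `N`, this is so for at least `K ^ (-a) N` of the `D`. -/
theorem result (A B : ℤ) (s : ℕ) (θ : ℝ) (hθ : 1 / 2 ≤ θ) :
    [∀ η : ℝ, 0 < η → ∀ᶠ K : ℕ in atTop, SymDiscLe A B s K ((K : ℝ) ^ (θ + η)),
     ∀ η : ℝ, 0 < η → ∃ C c : ℝ, 0 < c ∧ ∀ᶠ N : ℕ in atTop,
      (({D : ℤ | D ≠ 0 ∧ |D| ≤ N ∧ ∃ K : ℕ, (Real.log N) ^ C ≤ K ∧ (K : ℝ) ≤ (N : ℝ) ^ c ∧
        ¬ DiscLe (A * D ^ 2) (B * D ^ 3) s K ((K : ℝ) ^ (θ + η))}.ncard : ℕ) : ℝ) ≤ (N : ℝ) ^ (1 - c),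
     ∀ η : ℝ, 0 < η → ∀ a : ℝ, ∀ᶠ K : ℕ in atTop, ∀ᶠ N : ℕ in atTop,
      (({D : ℤ | D ≠ 0 ∧ |D| ≤ N ∧ ¬ DiscLe (A * D ^ 2) (B * D ^ 3) s K ((K : ℝ) ^ (θ + η))}.ncard : ℕ) : ℝ) ≤
        (K : ℝ) ^ (-a) * N,
     ∀ η : ℝ, 0 < η → ∃ a : ℝ, ∀ᶠ K : ℕ in atTop, ∃ᶠ N : ℕ in atTop, (K : ℝ) ^ (-a) * N ≤
      (({D : ℤ | D ≠ 0 ∧ |D| ≤ N ∧ DiscLe (A * D ^ 2) (B * D ^ 3) s K ((K : ℝ) ^ (θ + η))}.ncard : ℕ) : ℝ)].TFAE := by
  refine Pool.Agent.R429.TLA.tfae (fun K η => SymDiscLe A B s K ((K : ℝ) ^ (θ + η)))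
    (fun D K η => DiscLe (A * D ^ 2) (B * D ^ 3) s K ((K : ℝ) ^ (θ + η)))
    (fun D K η => Pool.Agent.R429.TLC.Dev A B s D K η) ?_ ?_ ?_ ?_
  · intro η hη
    refine ⟨η / 2, by positivity, ?_⟩
    filter_upwards [two_pow θ η hη hθ] with K hK D hdev hS R hR
    have h1 := hdev R hR
    have h2 := hS R hR
    have e : (cons (A * D ^ 2) (B * D ^ 3) R K : ℝ) - K * ∏ i, st (R i) =
        ((cons (A * D ^ 2) (B * D ^ 3) R K : ℝ) - (1 / 2 ^ s) * ∑ J : Finset (Fin s), (cons A B (refl J R) K : ℝ)) +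
        ((1 / 2 ^ s) * (∑ J : Finset (Fin s), (cons A B (refl J R) K : ℝ)) - K * ∏ i, st (R i)) := by ring
    rw [e]
    refine (abs_add_le _ _).trans ?_
    linarith
  · intro η hη
    refine ⟨η / 2, by positivity, ?_⟩
    filter_upwards [two_pow θ η hη hθ] with K hK D hdev hS R hR
    have h1 := hdev R hR
    have h2 := hS R hR
    have e : (1 / 2 ^ s) * (∑ J : Finset (Fin s), (cons A B (refl J R) K : ℝ)) - K * ∏ i, st (R i) =
        -((cons (A * D ^ 2) (B * D ^ 3) R K : ℝ) - (1 / 2 ^ s) * ∑ J : Finset (Fin s), (cons A B (refl J R) K : ℝ)) +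
        ((cons (A * D ^ 2) (B * D ^ 3) R K : ℝ) - K * ∏ i, st (R i)) := by ring
    rw [e]
    refine (abs_add_le _ _).trans ?_
    rw [abs_neg]
    linarith
  · intro η hη
    obtain ⟨C, c, hC, hc, N₀, h⟩ := cons_main s η hη
    refine ⟨C, c, hC, hc, ?_⟩
    filter_upwards [eventually_ge_atTop N₀] with N hN
    refine le_trans ?_ (h N hN A B)
    have := Set.ncard_le_ncard (s := {D : ℤ | D ≠ 0 ∧ |D| ≤ N ∧ ∃ x : ℕ, (Real.log N) ^ C ≤ x ∧ (x : ℝ) ≤ (N : ℝ) ^ c ∧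
        ¬ Pool.Agent.R429.TLC.Dev A B s D x η}) (t := {D : ℤ | D ≠ 0 ∧ |D| ≤ N ∧ ∃ K : ℕ, (Real.log N) ^ C ≤ K ∧
        (K : ℝ) ≤ (N : ℝ) ^ c ∧ ∃ R : Fin s → Set ℝ, (∀ i, (R i).OrdConnected) ∧
          (K : ℝ) ^ (1 / 2 + η) < |(cons (A * D ^ 2) (B * D ^ 3) R K : ℝ) -
            (1 / 2 ^ s) * ∑ J : Finset (Fin s), (cons A B (refl J R) K : ℝ)|}) ?_ (Pool.Agent.R429.TL.fin_set N _)
    · exact_mod_cast this
    rintro D ⟨h1, h2, K, h3, h4, h5⟩
    refine ⟨h1, h2, K, h3, h4, ?_⟩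
    unfold Pool.Agent.R429.TLC.Dev at h5
    push Not at h5
    exact h5
  · intro η hη a
    obtain ⟨K₀, h⟩ := Pool.Agent.R429.TLC.consWeak s η a hη
    filter_upwards [eventually_ge_atTop K₀] with K hK
    obtain ⟨N₁, hN₁⟩ := h K hK A B
    filter_upwards [eventually_ge_atTop N₁] with N hN
    exact hN₁ N hN

end

end Pool.Agent.Results.MP_29be01_nt.TwistDichotomy
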